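import Pool.Agent.Grig.Perm
import Pool.Agent.Grig.Struct1
import Pool.Agent.Grig.Struct2
import Pool.Agent.Grig.Desc
import Pool.Agent.Grig.Trunc
import Pool.Agent.Grig.Prod
import Pool.Agent.Grig.Embed
import Pool.Agent.Grig.Resid
import Pool.Agent.Grig.Run
import Pool.Agent.Grig.Model
import Pool.Agent.Grig.Prog

set_option autoImplicit false

/-!
# Solvability of systems of equations over the Grigorchuk group is undecidable

All definitions used in the statement are in `Pool/Agent/Grig/PermDefs.lean`: the generators
`a, b, c, d` as permutations of the set `List Bool` of vertices of the rooted binary tree, the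
group `Grigorchuk` they generate, words in the variables, their inverses and the four constants,
and `Solvable S`: the finite system `W = 1` (`W ∈ S`) has a solution in the group.
-/

namespace Pool.Agent.Results.MP_cfea17_lc.EquationsUndecidable

open Pool.Agent.Grig Pool.Agent.Grig.PermForm

/-- No algorithm decides, given a finite system of equations over the Grigorchuk group, whether it
has a solution in the group. -/
theorem result : ¬ ComputablePred (fun S : List (List Letter) => Solvable S) := by
  have hmk : T_mk := p_mk p_D p_sec
  have hK : T_K := p_K hmk p_sec p_lam
  have hlaw : T_law := p_law p_lam p_D p_sec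
  have hdesc : T_desc := p_desc hlaw p_sec p_lam p_D p_nuc
  exact undecidable_of hK hdesc p_init (p_trunc hmk) (p_prod p_selfrep hK) (p_embed hK) p_resid
    p_run p_model p_prog p_comp

end Pool.Agent.Results.MP_cfea17_lc.EquationsUndecidable
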